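import Mathlib

open scoped ContDiff

namespace Pool.Agent.Results.MP_3301e6_mp.TorsionCurvature

/-! ## Definitions used in the statement

Jet coordinates, differential functions, evolutionary flows, the systems of the problem,
torsion and curvature. -/

/-- Infinite jets of an `N`-component function of one variable `x` at a point:
`v k i` stands for the value of `∂_x^k u^i`. -/
abbrev Jet (N : ℕ) : Type := ℕ → Fin N → ℝ

/-- The jets whose base point `u = v 0` lies in `Ω`. -/
def jetsOver {N : ℕ} (Ω : Set (Fin N → ℝ)) : Set (Jet N) := {v | v 0 ∈ Ω}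

/-- `f` is a smooth function of `u, u_x, ..., u_{n-1}` (with `u` in `Ω`). -/
def IsSmoothOfJets {N : ℕ} (Ω : Set (Fin N → ℝ)) (n : ℕ) (f : Jet N → ℝ) : Prop :=
  ∃ g : (Fin n → Fin N → ℝ) → ℝ,
    ContDiffOn ℝ ∞ g {p | ∀ h : 0 < n, p ⟨0, h⟩ ∈ Ω} ∧
    ∀ v ∈ jetsOver Ω, f v = g (fun k => v k)

/-- The total `x`-derivative `D_x f = ∑_{k,i} (∂f/∂u^i_k) u^i_{k+1}`: the derivative of `f`
at the jet `v` along the direction `(v_{k+1})_k`. -/
noncomputable def totalDeriv {N : ℕ} (f : Jet N → ℝ) (v : Jet N) : ℝ :=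
  lineDeriv ℝ f v (fun k => v (k + 1))

/-- The derivative of `f` along the evolutionary flow `u_τ = K`, that is
`∑_{k,i} (∂f/∂u^i_k) D_x^k K^i`. -/
noncomputable def evolDeriv {N : ℕ} (K : Fin N → Jet N → ℝ) (f : Jet N → ℝ) (v : Jet N) : ℝ :=
  lineDeriv ℝ f v (fun k i => (totalDeriv^[k] (K i)) v)

/-- The flows `u_t = K` and `u_τ = L` commute (on all jets over `Ω`): `∂_t L = ∂_τ K`. -/
def FlowsCommute {N : ℕ} (Ω : Set (Fin N → ℝ)) (K L : Fin N → Jet N → ℝ) : Prop :=
  ∀ v ∈ jetsOver Ω, ∀ i, evolDeriv K (L i) v = evolDeriv L (K i) v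

/-- `K = u_n + G(u, u_x, ..., u_{n-1})` with `G` smooth. -/
def IsFlowOfOrder {N : ℕ} (Ω : Set (Fin N → ℝ)) (n : ℕ) (K : Fin N → Jet N → ℝ) : Prop :=
  ∃ G : Fin N → Jet N → ℝ, (∀ i, IsSmoothOfJets Ω n (G i)) ∧
    ∀ v ∈ jetsOver Ω, ∀ i, K i v = v n i + G i v

/-- The partial derivative `∂f/∂u^j`. -/
noncomputable def pd {N : ℕ} (j : Fin N) (f : (Fin N → ℝ) → ℝ) (u : Fin N → ℝ) : ℝ :=
  lineDeriv ℝ f u (Pi.single j 1)

/-- The data `(α, β)` of a third-order system of geometric type on a domain `Ω` of `ℝ^N`,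
`β` totally symmetric in its lower indices. -/
structure GeomSystem (N : ℕ) where
  /-- the domain of the `u`-space -/
  Ω : Set (Fin N → ℝ)
  isOpen : IsOpen Ω
  isConnected : IsConnected Ω
  /-- `α i j k` is `α^i_{jk}` -/
  α : Fin N → Fin N → Fin N → (Fin N → ℝ) → ℝ
  /-- `β i j k m` is `β^i_{jkm}` -/
  β : Fin N → Fin N → Fin N → Fin N → (Fin N → ℝ) → ℝ
  α_smooth : ∀ i j k, ContDiffOn ℝ ∞ (α i j k) Ω
  β_smooth : ∀ i j k m, ContDiffOn ℝ ∞ (β i j k m) Ω
  β_symm₁ : ∀ i j k m, β i j k m = β i k j m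
  β_symm₂ : ∀ i j k m, β i j k m = β i j m k

/-- The right-hand side of the system:
`u^i_xxx + 3 α^i_jk u^j_x u^k_xx
  + (∂α^i_km/∂u^j + 2 α^i_jr α^r_km - α^i_rj α^r_km + β^i_jkm) u^j_x u^k_x u^m_x`. -/
noncomputable def GeomSystem.rhs {N : ℕ} (S : GeomSystem N) (i : Fin N) (v : Jet N) : ℝ :=
  v 3 i + 3 * ∑ j, ∑ k, S.α i j k (v 0) * v 1 j * v 2 k
    + ∑ j, ∑ k, ∑ m, (pd j (S.α i k m) (v 0) + 2 * ∑ r, S.α i j r (v 0) * S.α r k m (v 0)
        - ∑ r, S.α i r j (v 0) * S.α r k m (v 0) + S.β i j k m (v 0)) * v 1 j * v 1 k * v 1 m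

/-- Integrability: there is an infinite hierarchy of higher symmetries. There are flows
`u_τ = K_s`, `s = 0, 1, 2, ...`, of strictly increasing orders `n_s`,
`K_s = u_{n_s} + G_s(u, ..., u_{n_s - 1})`, which commute with the system (and with each other). -/
def GeomSystem.IsIntegrable {N : ℕ} (S : GeomSystem N) : Prop :=
  ∃ (n : ℕ → ℕ) (K : ℕ → Fin N → Jet N → ℝ), StrictMono n ∧
    (∀ s, IsFlowOfOrder S.Ω (n s) (K s)) ∧
    (∀ s, FlowsCommute S.Ω S.rhs (K s)) ∧
    (∀ s t, FlowsCommute S.Ω (K s) (K t))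

/-- The system has a scalar reduction if some smooth function `f(u)` on a nonempty open part `U`
of the domain, with `df ≠ 0` somewhere on `U`, satisfies a closed scalar evolution equation
`f_t = Φ(f, f_x, f_xx, f_xxx)` by virtue of the system (`Φ` is an arbitrary function). -/
def GeomSystem.HasScalarReduction {N : ℕ} (S : GeomSystem N) : Prop :=
  ∃ (U : Set (Fin N → ℝ)) (f : (Fin N → ℝ) → ℝ) (Φ : ℝ → ℝ → ℝ → ℝ → ℝ),
    IsOpen U ∧ U ⊆ S.Ω ∧ ContDiffOn ℝ ∞ f U ∧ (∃ x ∈ U, fderiv ℝ f x ≠ 0) ∧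
    ∀ v ∈ jetsOver U, evolDeriv S.rhs (fun v => f (v 0)) v =
      Φ (f (v 0)) (totalDeriv (fun v => f (v 0)) v) ((totalDeriv^[2] (fun v => f (v 0))) v)
        ((totalDeriv^[3] (fun v => f (v 0))) v)

/-- The torsion `T^i_{jk} = Γ^i_{jk} - Γ^i_{kj}` of the connection with coefficients `Γ`. -/
def torsion {N : ℕ} (Γ : Fin N → Fin N → Fin N → (Fin N → ℝ) → ℝ)
    (i j k : Fin N) (u : Fin N → ℝ) : ℝ :=
  Γ i j k u - Γ i k j u

/-- The curvature of the connection `∇_{∂_j} ∂_k = Γ^i_{jk} ∂_i`: the `i`-th component of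
`R(∂_j, ∂_k) ∂_l`. -/
noncomputable def curvature {N : ℕ} (Γ : Fin N → Fin N → Fin N → (Fin N → ℝ) → ℝ)
    (i l j k : Fin N) (u : Fin N → ℝ) : ℝ :=
  pd j (Γ i k l) u - pd k (Γ i j l) u + ∑ r, (Γ i j r u * Γ r k l u - Γ i k r u * Γ r j l u)


/-- Polynomials in the jet coordinates and in one more variable `w`, evaluated at
`1/(u^a + u^b)`. -/
abbrev Poly (N : ℕ) : Type := MvPolynomial (Option (ℕ × Fin N)) ℝ

namespace Alg

variable {N : ℕ}

noncomputable def w : Poly N := MvPolynomial.X none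

noncomputable def u (k : ℕ) (i : Fin N) : Poly N := MvPolynomial.X (some (k, i))

/-- derivation with prescribed values on the jet coordinates, and on `w = 1/(u_a+u_b)` -/
noncomputable def vf (a b : Fin N) (V : ℕ → Fin N → Poly N) :
    Derivation ℝ (Poly N) (Poly N) :=
  MvPolynomial.mkDerivation ℝ
    (fun s => Option.elim s (-(V 0 a + V 0 b) * w ^ 2) (fun p => V p.1 p.2))

@[simp] lemma vf_w (a b : Fin N) (V : ℕ → Fin N → Poly N) :
    vf a b V w = -(V 0 a + V 0 b) * w ^ 2 := by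
  simp [vf, w, MvPolynomial.mkDerivation_X]

@[simp] lemma vf_u (a b : Fin N) (V : ℕ → Fin N → Poly N) (k : ℕ) (i : Fin N) :
    vf a b V (u k i) = V k i := by
  simp [vf, u, MvPolynomial.mkDerivation_X]

noncomputable def D (a b : Fin N) : Derivation ℝ (Poly N) (Poly N) :=
  vf a b (fun k i => u (k + 1) i)

@[simp] lemma D_w (a b : Fin N) : D a b w = -(u 1 a + u 1 b) * w ^ 2 := by
  simp [D]

@[simp] lemma D_u (a b : Fin N) (k : ℕ) (i : Fin N) : D a b (u k i) = u (k + 1) i := by
  simp [D]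

lemma poly_ext {D₁ D₂ : Derivation ℝ (Poly N) (Poly N)} (hw : D₁ w = D₂ w)
    (hu : ∀ k i, D₁ (u k i) = D₂ (u k i)) : D₁ = D₂ := by
  apply MvPolynomial.derivation_ext
  intro s
  cases s with
  | none => exact hw
  | some p => exact hu p.1 p.2

lemma vf_comm (a b : Fin N) (V : ℕ → Fin N → Poly N) : vf a b V = vf b a V := by
  apply poly_ext
  · rw [vf_w, vf_w]; ring
  · simp

lemma D_comm (a b : Fin N) : D a b = D b a := vf_comm a b _

/-- evolutionary derivation -/
noncomputable def evo (a b : Fin N) (K : Fin N → Poly N) : Derivation ℝ (Poly N) (Poly N) :=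
  vf a b (fun k i => (D a b)^[k] (K i))

lemma evo_D (a b : Fin N) (K : Fin N → Poly N) (p : Poly N) :
    evo a b K (D a b p) = D a b (evo a b K p) := by
  have h : ⁅evo a b K, D a b⁆ = 0 := by
    apply poly_ext
    · rw [Derivation.commutator_apply]
      simp only [evo, vf_w, D_w, Function.iterate_zero, id]
      simp only [Derivation.leibniz, Derivation.leibniz_pow, map_neg, map_add, vf_u, vf_w, D_w,
        Function.iterate_succ', Function.comp, Function.iterate_zero, id, smul_eq_mul,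
        nsmul_eq_mul, Derivation.coe_zero, Pi.zero_apply]
      push_cast
      ring
    · intro k i
      rw [Derivation.commutator_apply]
      simp only [evo, vf_u, D_u]
      rw [Function.iterate_succ_apply', sub_self]
      simp
  have h2 := congrArg (fun E => E p) h
  simp only [Derivation.commutator_apply, Derivation.coe_zero, Pi.zero_apply] at h2
  exact sub_eq_zero.mp h2

/-- `E a b k` is `Y_k / Y` where `Y_1/Y = u^a_x / m`. -/
noncomputable def E (a b : Fin N) : ℕ → Poly N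
  | 0 => 1
  | k + 1 => D a b (E a b k) + u 1 a * w * E a b k

/-- `T a b k` is `m Y_{k+1} / Y`. -/
noncomputable def T (a b : Fin N) : ℕ → Poly N
  | 0 => u 1 a
  | k + 1 => D a b (T a b k) - u 1 b * w * T a b k

lemma D_E (a b : Fin N) (k : ℕ) :
    D a b (E a b k) = E a b (k + 1) - u 1 a * w * E a b k := by
  simp [E]

lemma D_E' (a b : Fin N) (k : ℕ) :
    D a b (E b a k) = E b a (k + 1) - u 1 b * w * E b a k := by
  rw [D_comm]; simp [E]

lemma D_T (a b : Fin N) (k : ℕ) :
    D a b (T a b k) = T a b (k + 1) + u 1 b * w * T a b k := by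
  simp [T]

lemma E_succ (a b : Fin N) (k : ℕ) : E a b (k + 1) = w * T a b k := by
  induction k with
  | zero => simp [E, T]; ring
  | succ k ih =>
    rw [E, ih, T]
    simp only [Derivation.leibniz, D_w, smul_eq_mul]
    ring

lemma D_mul_ET (a b : Fin N) (j l : ℕ) :
    D a b (E b a j * T a b l) = E b a (j + 1) * T a b l + E b a j * T a b (l + 1) := by
  simp only [Derivation.leibniz, D_T, D_E', smul_eq_mul]
  ring

/-- the component `a` of the `n`-th flow -/
noncomputable def K (a b : Fin N) (n : ℕ) : Poly N :=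
  ∑ j ∈ Finset.range n, (-1) ^ j * (E b a j * T a b (n - 1 - j))

lemma D_K (a b : Fin N) {n : ℕ} (hn : Odd n) :
    D a b (K a b n) = T a b n + E b a n * u 1 a := by
  have h1 : D a b (K a b n) = ∑ j ∈ Finset.range n,
      ((-1) ^ j * (E b a j * T a b (n - j)) - (-1) ^ (j + 1) * (E b a (j + 1) * T a b (n - (j + 1)))) := by
    rw [K, map_sum]
    apply Finset.sum_congr rfl
    intro j hj
    have hj' : j < n := Finset.mem_range.mp hj
    have e1 : n - 1 - j + 1 = n - j := by omega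
    have e2 : n - 1 - j = n - (j + 1) := by omega
    rw [Derivation.leibniz, D_mul_ET, e1, ← e2]
    have : D a b ((-1 : Poly N) ^ j) = 0 := by
      rw [Derivation.leibniz_pow]; simp
    rw [this]
    simp only [smul_eq_mul]
    ring
  rw [h1, Finset.sum_range_sub' (fun j => (-1) ^ j * (E b a j * T a b (n - j)))]
  have : (-1 : Poly N) ^ n = -1 := hn.neg_one_pow
  simp [this, E, T]

lemma w_K_add (a b : Fin N) {n : ℕ} (hn : Odd n) :
    w * (K a b n + K b a n) = E a b n + E b a n := by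
  have h1 : w * K a b n = ∑ j ∈ Finset.range n, (-1) ^ j * (E b a j * E a b (n - j)) := by
    rw [K, Finset.mul_sum]
    apply Finset.sum_congr rfl
    intro j hj
    have hj' : j < n := Finset.mem_range.mp hj
    have e1 : n - j = (n - 1 - j) + 1 := by omega
    rw [e1, E_succ]
    ring
  have h2 : w * K b a n = ∑ j ∈ Finset.range n, (-1) ^ j * (E a b j * E b a (n - j)) := by
    rw [K, Finset.mul_sum]
    apply Finset.sum_congr rfl
    intro j hj
    have hj' : j < n := Finset.mem_range.mp hj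
    have e1 : n - j = (n - 1 - j) + 1 := by omega
    rw [e1, E_succ]
    ring
  have h3 : ∑ j ∈ Finset.range n, (-1) ^ j * (E a b j * E b a (n - j))
      = - ∑ j ∈ Finset.range n, (-1 : Poly N) ^ (j + 1) * (E b a (j + 1) * E a b (n - (j + 1))) := by
    rw [← Finset.sum_range_reflect, ← Finset.sum_neg_distrib]
    apply Finset.sum_congr rfl
    intro j hj
    have hj' : j < n := Finset.mem_range.mp hj
    have e1 : n - 1 - j = n - (j + 1) := by omega
    have e2 : n - (n - 1 - j) = j + 1 := by omega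
    rw [e2, e1]
    have e3 : (-1 : Poly N) ^ (n - (j + 1)) = - (-1) ^ (j + 1) := by
      have h4 : (-1 : Poly N) ^ (n - (j + 1)) * (-1) ^ (j + 1) = -1 := by
        rw [← pow_add]
        have : n - (j + 1) + (j + 1) = n := by omega
        rw [this, hn.neg_one_pow]
      have h5 : (-1 : Poly N) ^ (j + 1) * (-1) ^ (j + 1) = 1 := by
        rw [← mul_pow]; simp
      calc (-1 : Poly N) ^ (n - (j + 1))
          = (-1 : Poly N) ^ (n - (j + 1)) * ((-1) ^ (j + 1) * (-1) ^ (j + 1)) := by rw [h5, mul_one]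
        _ = ((-1 : Poly N) ^ (n - (j + 1)) * (-1) ^ (j + 1)) * (-1) ^ (j + 1) := by ring
        _ = - (-1) ^ (j + 1) := by rw [h4]; ring
    rw [e3]
    ring
  rw [mul_add, h1, h2, h3, ← sub_eq_add_neg, ← Finset.sum_sub_distrib,
    Finset.sum_range_sub' (fun j => (-1) ^ j * (E b a j * E a b (n - j)))]
  have : (-1 : Poly N) ^ n = -1 := hn.neg_one_pow
  simp [this, E]

/-- characteristic of the `n`-th flow -/
noncomputable def Ch (a b : Fin N) (n : ℕ) : Fin N → Poly N :=
  fun i => if i = a then K a b n else if i = b then K b a n else u n i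

lemma Ch_a (a b : Fin N) (n : ℕ) : Ch a b n a = K a b n := by simp [Ch]

lemma Ch_b (a b : Fin N) (hab : a ≠ b) (n : ℕ) : Ch a b n b = K b a n := by
  simp [Ch, hab.symm]

lemma Ch_comm (a b : Fin N) (hab : a ≠ b) (n : ℕ) : Ch a b n = Ch b a n := by
  funext i
  simp only [Ch]
  by_cases h1 : i = a
  · subst h1; simp [hab]
  · by_cases h2 : i = b
    · subst h2; simp [h1]
    · simp [h1, h2]

/-- the `n`-th flow -/
noncomputable def δ (a b : Fin N) (n : ℕ) : Derivation ℝ (Poly N) (Poly N) :=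
  evo a b (Ch a b n)

lemma δ_comm (a b : Fin N) (hab : a ≠ b) (n : ℕ) : δ a b n = δ b a n := by
  unfold δ evo
  rw [Ch_comm a b hab, vf_comm, D_comm]

lemma δ_D (a b : Fin N) (n : ℕ) (p : Poly N) : δ a b n (D a b p) = D a b (δ a b n p) :=
  evo_D a b _ p

lemma δ_w (a b : Fin N) (hab : a ≠ b) {n : ℕ} (hn : Odd n) :
    δ a b n w = -(E a b n + E b a n) * w := by
  have h := w_K_add a b hn
  simp only [δ, evo, vf_w, Function.iterate_zero, id, Ch_a, Ch_b a b hab]
  linear_combination (-w) * h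

lemma δ_u1a (a b : Fin N) {n : ℕ} (hn : Odd n) :
    δ a b n (u 1 a) = T a b n + E b a n * u 1 a := by
  rw [← D_K a b hn]
  simp [δ, evo, Ch_a]

lemma δ_P (a b : Fin N) (hab : a ≠ b) {n : ℕ} (hn : Odd n) :
    δ a b n (u 1 a * w) = E a b (n + 1) - u 1 a * w * E a b n := by
  rw [Derivation.leibniz, δ_w a b hab hn, δ_u1a a b hn, E_succ]
  simp only [smul_eq_mul]
  ring

lemma δ_E (a b : Fin N) (hab : a ≠ b) {n : ℕ} (hn : Odd n) (k : ℕ) :
    δ a b n (E a b k) = E a b (n + k) - E a b n * E a b k := by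
  induction k with
  | zero => simp [E]
  | succ k ih =>
    have h1 : δ a b n (E a b (k + 1)) = D a b (δ a b n (E a b k)) + (δ a b n (u 1 a * w) * E a b k
        + u 1 a * w * δ a b n (E a b k)) := by
      conv_lhs => rw [E]
      rw [map_add, δ_D, Derivation.leibniz]
      simp only [smul_eq_mul]
      ring
    rw [h1, ih, δ_P a b hab hn, map_sub, Derivation.leibniz, D_E, D_E, D_E]
    simp only [smul_eq_mul]
    have : n + (k + 1) = n + k + 1 := by ring
    rw [this]
    ring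

lemma δ_E' (a b : Fin N) (hab : a ≠ b) {n : ℕ} (hn : Odd n) (k : ℕ) :
    δ a b n (E b a k) = E b a (n + k) - E b a n * E b a k := by
  rw [δ_comm a b hab]; exact δ_E b a hab.symm hn k

lemma δ_P' (a b : Fin N) (hab : a ≠ b) {n : ℕ} (hn : Odd n) :
    δ a b n (u 1 b * w) = E b a (n + 1) - u 1 b * w * E b a n := by
  rw [δ_comm a b hab]; exact δ_P b a hab.symm hn

lemma δ_T (a b : Fin N) (hab : a ≠ b) {n : ℕ} (hn : Odd n) (l : ℕ) :
    δ a b n (T a b l) = T a b (n + l) + E b a n * T a b l := by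
  induction l with
  | zero => simpa [T] using δ_u1a a b hn
  | succ l ih =>
    have h1 : δ a b n (T a b (l + 1)) = D a b (δ a b n (T a b l)) - (δ a b n (u 1 b * w) * T a b l
        + u 1 b * w * δ a b n (T a b l)) := by
      conv_lhs => rw [T]
      rw [map_sub, δ_D, Derivation.leibniz]
      simp only [smul_eq_mul]
      ring
    rw [h1, ih, δ_P' a b hab hn, map_add, D_mul_ET, D_T]
    have : n + (l + 1) = n + l + 1 := by ring
    rw [this]
    ring

lemma δ_K (a b : Fin N) (hab : a ≠ b) {m n : ℕ} (hm : Odd m) :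
    δ a b m (K a b n) = ∑ j ∈ Finset.range n, (-1) ^ j * (E b a (m + j) * T a b (n - 1 - j)
      + E b a j * T a b (m + (n - 1 - j))) := by
  rw [K, map_sum]
  apply Finset.sum_congr rfl
  intro j _
  have h0 : δ a b m ((-1 : Poly N) ^ j) = 0 := by
    rw [Derivation.leibniz_pow]; simp
  rw [Derivation.leibniz, Derivation.leibniz, h0, δ_T a b hab hm, δ_E' a b hab hm]
  simp only [smul_eq_mul]
  ring

lemma δ_K_symm (a b : Fin N) (hab : a ≠ b) {m n : ℕ} (hm : Odd m) (hn : Odd n) :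
    δ a b m (K a b n) = δ a b n (K a b m) := by
  have key : ∀ {m n : ℕ}, Odd m → Odd n → δ a b m (K a b n) =
      ∑ j ∈ Finset.range n, (-1) ^ j * (E b a j * T a b (m + n - 1 - j))
      + ∑ j ∈ Finset.range m, (-1) ^ j * (E b a j * T a b (m + n - 1 - j))
      - ∑ j ∈ Finset.range (m + n), (-1) ^ j * (E b a j * T a b (m + n - 1 - j)) := by
    intro m n hm hn
    rw [δ_K a b hab hm, Finset.sum_range_add]
    have h1 : ∀ j ∈ Finset.range n, (-1 : Poly N) ^ j * (E b a (m + j) * T a b (n - 1 - j)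
        + E b a j * T a b (m + (n - 1 - j)))
        = (-1) ^ j * (E b a j * T a b (m + n - 1 - j))
          - (-1) ^ (m + j) * (E b a (m + j) * T a b (m + n - 1 - (m + j))) := by
      intro j hj
      have hj' : j < n := Finset.mem_range.mp hj
      have e1 : m + (n - 1 - j) = m + n - 1 - j := by omega
      have e2 : m + n - 1 - (m + j) = n - 1 - j := by omega
      rw [e1, e2, pow_add, hm.neg_one_pow]
      ring
    rw [Finset.sum_congr rfl h1, Finset.sum_sub_distrib]
    ring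
  rw [key hm hn, key hn hm, Nat.add_comm n m]
  ring

lemma δ_K_symm' (a b : Fin N) (hab : a ≠ b) {m n : ℕ} (hm : Odd m) (hn : Odd n) :
    δ a b m (K b a n) = δ a b n (K b a m) := by
  rw [δ_comm a b hab, δ_comm a b hab]
  exact δ_K_symm b a hab.symm hm hn

lemma D_iter_u (a b : Fin N) (k n : ℕ) (i : Fin N) : (D a b)^[k] (u n i) = u (n + k) i := by
  induction k with
  | zero => simp
  | succ k ih => rw [Function.iterate_succ', Function.comp, ih, D_u]; rfl

lemma flows_symm (a b : Fin N) (hab : a ≠ b) {m n : ℕ} (hm : Odd m) (hn : Odd n) (i : Fin N) :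
    δ a b m (Ch a b n i) = δ a b n (Ch a b m i) := by
  simp only [Ch]
  by_cases h1 : i = a
  · subst h1
    simpa using δ_K_symm i b hab hm hn
  · by_cases h2 : i = b
    · subst h2
      simpa [h1] using δ_K_symm' a i hab hm hn
    · simp only [h1, h2, if_false]
      simp only [δ, evo, vf_u, Ch, h1, h2, if_false, D_iter_u]
      rw [Nat.add_comm]


/-! ## Evaluation at jets -/

/-- evaluation of a polynomial at a jet -/
noncomputable def ev (a b : Fin N) (v : Jet N) : Poly N →ₐ[ℝ] ℝ :=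
  MvPolynomial.aeval (fun s => Option.elim s ((v 0 a + v 0 b)⁻¹) (fun p => v p.1 p.2))

@[simp] lemma ev_w (a b : Fin N) (v : Jet N) : ev a b v w = (v 0 a + v 0 b)⁻¹ := by
  simp [ev, w]

@[simp] lemma ev_u (a b : Fin N) (v : Jet N) (k : ℕ) (i : Fin N) : ev a b v (u k i) = v k i := by
  simp [ev, u]

/-- the domain -/
def Om (a b : Fin N) : Set (Fin N → ℝ) := {x | 0 < x a + x b}

lemma hasDerivAt_ev (a b : Fin N) (V : ℕ → Fin N → Poly N) (v : Jet N)
    (hv : v 0 ∈ Om a b) (p : Poly N) :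
    HasDerivAt (fun t : ℝ => ev a b (v + t • (fun k i => ev a b v (V k i))) p)
      (ev a b v (vf a b V p)) 0 := by
  induction p using MvPolynomial.induction_on with
  | C r =>
    have h1 : (fun t : ℝ => ev a b (v + t • (fun k i => ev a b v (V k i))) (MvPolynomial.C r))
        = fun _ => r := by
      funext t; simp [ev]
    rw [h1]
    have h2 : vf a b V (MvPolynomial.C r) = 0 := by
      simp [vf]
    rw [h2, map_zero]
    exact hasDerivAt_const 0 r
  | add p q hp hq =>
    simp only [map_add]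
    exact hp.add hq
  | mul_X p s hp =>
    have hs : HasDerivAt (fun t : ℝ => ev a b (v + t • (fun k i => ev a b v (V k i)))
        (MvPolynomial.X s)) (ev a b v (vf a b V (MvPolynomial.X s))) 0 := by
      cases s with
      | none =>
        change HasDerivAt (fun t : ℝ => ev a b (v + t • (fun k i => ev a b v (V k i))) w)
          (ev a b v (vf a b V w)) 0
        simp only [ev_w, vf_w, Pi.add_apply, Pi.smul_apply, smul_eq_mul, map_neg, map_add,
          map_mul, map_pow]
        have h1 : HasDerivAt (fun t : ℝ => v 0 a + t * ev a b v (V 0 a)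
            + (v 0 b + t * ev a b v (V 0 b))) (ev a b v (V 0 a) + ev a b v (V 0 b)) 0 := by
          have h2 := ((hasDerivAt_id (0 : ℝ)).mul_const (ev a b v (V 0 a))).const_add (v 0 a)
          have h3 := ((hasDerivAt_id (0 : ℝ)).mul_const (ev a b v (V 0 b))).const_add (v 0 b)
          have h4 := h2.fun_add h3
          simpa using h4
        have h0 : v 0 a + 0 * ev a b v (V 0 a) + (v 0 b + 0 * ev a b v (V 0 b)) ≠ 0 := by
          have : 0 < v 0 a + v 0 b := hv
          simp only [zero_mul, add_zero]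
          exact this.ne'
        have h5 := h1.fun_inv h0
        refine h5.congr_deriv ?_
        have h0' : v 0 a + v 0 b ≠ 0 := by simpa using h0
        rw [zero_mul, zero_mul, add_zero, add_zero]
        field_simp
      | some q =>
        change HasDerivAt (fun t : ℝ => ev a b (v + t • (fun k i => ev a b v (V k i)))
          (u q.1 q.2)) (ev a b v (vf a b V (u q.1 q.2))) 0
        simp only [ev_u, vf_u, Pi.add_apply, Pi.smul_apply, smul_eq_mul]
        have h2 := ((hasDerivAt_id (0 : ℝ)).mul_const (ev a b v (V q.1 q.2))).const_add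
          (v q.1 q.2)
        simpa using h2
    have h := hp.fun_mul hs
    simp only [map_mul, Derivation.leibniz, smul_eq_mul, map_add]
    refine h.congr_deriv ?_
    rw [zero_smul, add_zero]
    ring

lemma lineDeriv_eq (a b : Fin N) (V : ℕ → Fin N → Poly N) (v : Jet N)
    (hv : v 0 ∈ Om a b) (f : Jet N → ℝ) (p : Poly N)
    (hf : ∀ v ∈ jetsOver (Om a b), f v = ev a b v p) :
    lineDeriv ℝ f v (fun k i => ev a b v (V k i)) = ev a b v (vf a b V p) := by
  have h := hasDerivAt_ev a b V v hv p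
  have hcont : Continuous (fun t : ℝ => v 0 a + t * ev a b v (V 0 a)
      + (v 0 b + t * ev a b v (V 0 b))) := by fun_prop
  have hpos : ∀ᶠ t in nhds (0 : ℝ), 0 < v 0 a + t * ev a b v (V 0 a)
      + (v 0 b + t * ev a b v (V 0 b)) := by
    apply hcont.continuousAt.eventually_mem (Ioi_mem_nhds ?_)
    have : 0 < v 0 a + v 0 b := hv
    simpa using this
  have hev : (fun t : ℝ => f (v + t • (fun k i => ev a b v (V k i)))) =ᶠ[nhds 0]
      (fun t : ℝ => ev a b (v + t • (fun k i => ev a b v (V k i))) p) := by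
    filter_upwards [hpos] with t ht
    apply hf
    change 0 < (v + t • (fun k i => ev a b v (V k i)) : Jet N) 0 a
      + (v + t • (fun k i => ev a b v (V k i)) : Jet N) 0 b
    simpa using ht
  exact (h.congr_of_eventuallyEq hev).deriv

lemma totalDeriv_eq (a b : Fin N) (f : Jet N → ℝ) (p : Poly N)
    (hf : ∀ v ∈ jetsOver (Om a b), f v = ev a b v p) :
    ∀ v ∈ jetsOver (Om a b), totalDeriv f v = ev a b v (D a b p) := by
  intro v hv
  have h := lineDeriv_eq a b (fun k i => u (k + 1) i) v hv f p hf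
  simp only [ev_u] at h
  exact h

lemma totalDeriv_iter_eq (a b : Fin N) (f : Jet N → ℝ) (p : Poly N)
    (hf : ∀ v ∈ jetsOver (Om a b), f v = ev a b v p) (k : ℕ) :
    ∀ v ∈ jetsOver (Om a b), (totalDeriv^[k] f) v = ev a b v ((D a b)^[k] p) := by
  induction k with
  | zero => simpa using hf
  | succ k ih =>
    intro v hv
    rw [Function.iterate_succ_apply', Function.iterate_succ_apply']
    exact totalDeriv_eq a b _ _ ih v hv

lemma evolDeriv_eq (a b : Fin N) (F : Fin N → Jet N → ℝ) (P : Fin N → Poly N)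
    (hF : ∀ i, ∀ v ∈ jetsOver (Om a b), F i v = ev a b v (P i))
    (f : Jet N → ℝ) (p : Poly N) (hf : ∀ v ∈ jetsOver (Om a b), f v = ev a b v p) :
    ∀ v ∈ jetsOver (Om a b), evolDeriv F f v = ev a b v (evo a b P p) := by
  intro v hv
  have h := lineDeriv_eq a b (fun k i => (D a b)^[k] (P i)) v hv f p hf
  have h2 : (fun (k : ℕ) (i : Fin N) => (totalDeriv^[k] (F i)) v)
      = fun k i => ev a b v ((D a b)^[k] (P i)) := by
    funext k i
    exact totalDeriv_iter_eq a b (F i) (P i) (hF i) k v hv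
  rw [evolDeriv, h2]
  exact h

/-! ## Order and smoothness of the flows -/

/-- polynomials of order `< n` -/
noncomputable def Low (N n : ℕ) : Subalgebra ℝ (Poly N) :=
  MvPolynomial.supported ℝ {s | s = none ∨ ∃ k i, s = some (k, i) ∧ k < n}

lemma w_mem_Low (n : ℕ) : (w : Poly N) ∈ Low N n := by
  unfold Low w
  rw [MvPolynomial.X_mem_supported]
  left; rfl

lemma u_mem_Low {k n : ℕ} (h : k < n) (i : Fin N) : u k i ∈ Low N n := by
  unfold Low u
  rw [MvPolynomial.X_mem_supported]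
  right; exact ⟨k, i, rfl, h⟩

lemma Low_mono {m n : ℕ} (h : m ≤ n) : Low N m ≤ Low N n := by
  apply MvPolynomial.supported_mono
  rintro s (hs | ⟨k, i, hs, hk⟩)
  · left; exact hs
  · right; exact ⟨k, i, hs, lt_of_lt_of_le hk h⟩

lemma D_mem_Low (a b : Fin N) {n : ℕ} {p : Poly N} (hn : 0 < n) (hp : p ∈ Low N n) :
    D a b p ∈ Low N (n + 1) := by
  have hp' : p ∈ Algebra.adjoin ℝ (MvPolynomial.X ''
      {s : Option (ℕ × Fin N) | s = none ∨ ∃ k i, s = some (k, i) ∧ k < n}) := hp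
  have hle : Low N n ≤ Low N (n + 1) := Low_mono (Nat.le_succ n)
  induction hp' using Algebra.adjoin_induction with
  | mem x hx =>
    obtain ⟨s, hs, rfl⟩ := hx
    rcases hs with hs | ⟨k, i, hs, hk⟩
    · subst hs
      change D a b w ∈ _
      rw [D_w]
      refine mul_mem (neg_mem (add_mem ?_ ?_)) (pow_mem (w_mem_Low _) 2)
      · exact u_mem_Low (by omega) a
      · exact u_mem_Low (by omega) b
    · subst hs
      change D a b (u k i) ∈ _
      rw [D_u]
      exact u_mem_Low (by omega) i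
  | algebraMap r =>
    simp
  | add x y hx hy ihx ihy =>
    rw [map_add]
    exact add_mem (ihx hx) (ihy hy)
  | mul x y hx hy ihx ihy =>
    rw [Derivation.leibniz]
    simp only [smul_eq_mul]
    exact add_mem (mul_mem (hle hx) (ihy hy)) (mul_mem (hle hy) (ihx hx))

lemma E_mem_Low (a b : Fin N) (k : ℕ) : E a b k ∈ Low N (k + 1) := by
  induction k with
  | zero => simp [E]
  | succ k ih =>
    rw [E]
    refine add_mem (D_mem_Low a b (Nat.succ_pos k) ih) (mul_mem (mul_mem ?_ (w_mem_Low _)) ?_)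
    · exact u_mem_Low (by omega) a
    · exact Low_mono (Nat.le_succ _) ih

lemma T_sub_mem_Low (a b : Fin N) (l : ℕ) : T a b l - u (l + 1) a ∈ Low N (l + 1) := by
  induction l with
  | zero => simp [T]
  | succ l ih =>
    have h1 : T a b (l + 1) - u (l + 1 + 1) a
        = D a b (T a b l - u (l + 1) a) - u 1 b * w * ((T a b l - u (l + 1) a) + u (l + 1) a) := by
      rw [T, map_sub, D_u]; ring
    rw [h1]
    refine sub_mem (D_mem_Low a b (Nat.succ_pos l) ih)
      (mul_mem (mul_mem (u_mem_Low (by omega) b) (w_mem_Low _)) (add_mem ?_ ?_))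
    · exact Low_mono (Nat.le_succ _) ih
    · exact u_mem_Low (by omega) a

lemma T_mem_Low (a b : Fin N) (l : ℕ) : T a b l ∈ Low N (l + 2) := by
  have h := add_mem (Low_mono (Nat.le_succ _) (T_sub_mem_Low a b l))
    (u_mem_Low (show l + 1 < l + 1 + 1 by omega) a)
  simpa using h

lemma neg_one_pow_mem (n j : ℕ) : ((-1 : Poly N) ^ j) ∈ Low N n :=
  pow_mem (neg_mem (one_mem _)) j

lemma K_sub_mem_Low (a b : Fin N) (n : ℕ) : K a b (n + 1) - u (n + 1) a ∈ Low N (n + 1) := by
  have h1 : K a b (n + 1) - u (n + 1) a = ∑ j ∈ Finset.range n,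
      (-1) ^ (j + 1) * (E b a (j + 1) * T a b (n + 1 - 1 - (j + 1)))
      + (T a b n - u (n + 1) a) := by
    rw [K, Finset.sum_range_succ']
    simp [E]
    ring
  rw [h1]
  refine add_mem (sum_mem ?_) (T_sub_mem_Low a b n)
  intro j hj
  have hj' : j < n := Finset.mem_range.mp hj
  refine mul_mem (neg_one_pow_mem _ _) (mul_mem ?_ ?_)
  · exact Low_mono (by omega) (E_mem_Low b a (j + 1))
  · exact Low_mono (by omega) (T_mem_Low a b (n + 1 - 1 - (j + 1)))

lemma Ch_sub_mem_Low (a b : Fin N) (n : ℕ) (i : Fin N) :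
    Ch a b (n + 1) i - u (n + 1) i ∈ Low N (n + 1) := by
  simp only [Ch]
  by_cases h1 : i = a
  · subst h1; simpa using K_sub_mem_Low i b n
  · by_cases h2 : i = b
    · subst h2; simpa [h1] using K_sub_mem_Low i a n
    · simp [h1, h2]

lemma ev_smooth (a b : Fin N) {n : ℕ} (hn : 0 < n) {p : Poly N} (hp : p ∈ Low N n) :
    IsSmoothOfJets (Om a b) n (fun v => ev a b v p) := by
  have hp' : p ∈ Algebra.adjoin ℝ (MvPolynomial.X ''
      {s : Option (ℕ × Fin N) | s = none ∨ ∃ k i, s = some (k, i) ∧ k < n}) := hp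
  clear hp
  induction hp' using Algebra.adjoin_induction with
  | mem x hx =>
    obtain ⟨s, hs, rfl⟩ := hx
    rcases hs with hs | ⟨k, i, hs, hk⟩
    · subst hs
      refine ⟨fun p => (p ⟨0, hn⟩ a + p ⟨0, hn⟩ b)⁻¹, ?_, ?_⟩
      · apply ContDiffOn.inv
        · apply ContDiff.contDiffOn
          fun_prop
        · intro p hp
          exact (show (0 : ℝ) < _ from hp hn).ne'
      · intro v _
        exact ev_w a b v
    · subst hs
      refine ⟨fun p => p ⟨k, hk⟩ i, ?_, ?_⟩
      · apply ContDiff.contDiffOn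
        fun_prop
      · intro v _
        exact ev_u a b v k i
  | algebraMap r =>
    refine ⟨fun _ => r, contDiffOn_const, ?_⟩
    intro v _
    simp
  | add x y hx hy ihx ihy =>
    obtain ⟨g, hg, hg'⟩ := ihx
    obtain ⟨g2, hg2, hg2'⟩ := ihy
    refine ⟨fun p => g p + g2 p, hg.add hg2, ?_⟩
    intro v hv
    have e1 := hg' v hv
    have e2 := hg2' v hv
    simp only [map_add] at e1 e2 ⊢
    rw [e1, e2]
  | mul x y hx hy ihx ihy =>
    obtain ⟨g, hg, hg'⟩ := ihx
    obtain ⟨g2, hg2, hg2'⟩ := ihy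
    refine ⟨fun p => g p * g2 p, hg.mul hg2, ?_⟩
    intro v hv
    have e1 := hg' v hv
    have e2 := hg2' v hv
    simp only [map_mul] at e1 e2 ⊢
    rw [e1, e2]

/-! ## The system -/

/-- Kronecker delta -/
def ind (i j : Fin N) : ℝ := if i = j then 1 else 0

lemma ind_self (i : Fin N) : ind i i = 1 := by simp [ind]

lemma ind_ne {i j : Fin N} (h : i ≠ j) : ind i j = 0 := by simp [ind, h]

lemma sum_ind (c : Fin N) (f : Fin N → ℝ) : ∑ j, ind j c * f j = f c := by
  simp [ind]

/-- the coefficients `α`: `α^a_{ba} = α^b_{ab} = -1/(u^a+u^b)`, all others vanish -/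
noncomputable def al (a b : Fin N) (i j k : Fin N) (x : Fin N → ℝ) : ℝ :=
  (ind i a * (ind j b * ind k a) + ind i b * (ind j a * ind k b)) * (-(x a + x b)⁻¹)

lemma Om_open (a b : Fin N) : IsOpen (Om a b) := by
  have h : Continuous (fun x : Fin N → ℝ => x a + x b) := by fun_prop
  exact isOpen_Ioi.preimage h

lemma Om_connected (a b : Fin N) : IsConnected (Om a b) := by
  constructor
  · refine ⟨fun _ => 1, ?_⟩
    change (0 : ℝ) < 1 + 1
    norm_num
  · apply Convex.isPreconnected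
    intro x hx y hy s t hs ht hst
    change 0 < (s • x + t • y) a + (s • x + t • y) b
    have hx' : 0 < x a + x b := hx
    have hy' : 0 < y a + y b := hy
    simp only [Pi.add_apply, Pi.smul_apply, smul_eq_mul]
    have : s * x a + t * y a + (s * x b + t * y b) = s * (x a + x b) + t * (y a + y b) := by ring
    rw [this]
    rcases hs.eq_or_lt with h | h
    · have ht1 : t = 1 := by linarith
      rw [← h, ht1]
      simpa using hy'
    · have := mul_pos h hx'
      have := mul_nonneg ht hy'.le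
      linarith

lemma inv_smooth (a b : Fin N) :
    ContDiffOn ℝ ∞ (fun x : Fin N → ℝ => -(x a + x b)⁻¹) (Om a b) := by
  apply ContDiffOn.neg
  apply ContDiffOn.inv
  · apply ContDiff.contDiffOn
    fun_prop
  · intro p hp
    exact (show (0 : ℝ) < _ from hp).ne'

lemma al_smooth (a b i j k : Fin N) : ContDiffOn ℝ ∞ (al a b i j k) (Om a b) :=
  contDiffOn_const.mul (inv_smooth a b)

/-- the system -/
noncomputable def sys (a b : Fin N) : GeomSystem N where
  Ω := Om a b
  isOpen := Om_open a b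
  isConnected := Om_connected a b
  α := al a b
  β := fun _ _ _ _ _ => 0
  α_smooth := al_smooth a b
  β_smooth := fun _ _ _ _ => contDiffOn_const
  β_symm₁ := fun _ _ _ _ => rfl
  β_symm₂ := fun _ _ _ _ => rfl

lemma pd_al (a b i j k l : Fin N) (x : Fin N → ℝ) (hx : x ∈ Om a b) :
    pd l (al a b i j k) x =
      (ind i a * (ind j b * ind k a) + ind i b * (ind j a * ind k b)) *
      ((ind l a + ind l b) * ((x a + x b)⁻¹) ^ 2) := by
  have hx' : 0 < x a + x b := hx
  set c : Fin N → ℝ := Pi.single l 1 with hc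
  have h1 : HasDerivAt (fun t : ℝ => x a + t * c a + (x b + t * c b)) (c a + c b) 0 := by
    have h2 := ((hasDerivAt_id (0 : ℝ)).mul_const (c a)).const_add (x a)
    have h3 := ((hasDerivAt_id (0 : ℝ)).mul_const (c b)).const_add (x b)
    simpa using h2.fun_add h3
  have h0 : x a + 0 * c a + (x b + 0 * c b) ≠ 0 := by
    simp only [zero_mul, add_zero]; exact hx'.ne'
  have h5 := ((h1.fun_inv h0).fun_neg).const_mul
    (ind i a * (ind j b * ind k a) + ind i b * (ind j a * ind k b))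
  have h6 : pd l (al a b i j k) x
      = (ind i a * (ind j b * ind k a) + ind i b * (ind j a * ind k b)) *
        (- (-(c a + c b) / (x a + 0 * c a + (x b + 0 * c b)) ^ 2)) := h5.deriv
  rw [h6]
  have ha : c a = ind l a := by
    rw [hc, Pi.single_apply, ind]; simp only [eq_comm]
  have hb : c b = ind l b := by
    rw [hc, Pi.single_apply, ind]; simp only [eq_comm]
  rw [ha, hb]
  simp only [zero_mul, add_zero]
  field_simp

lemma sum_al_left (a b i j : Fin N) (x : Fin N → ℝ) (g : Fin N → ℝ) :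
    ∑ r, al a b i j r x * g r
      = -(x a + x b)⁻¹ * (ind i a * ind j b * g a + ind i b * ind j a * g b) := by
  have h : ∀ r, al a b i j r x * g r = -(x a + x b)⁻¹ * (ind i a * ind j b) * (ind r a * g r)
      + -(x a + x b)⁻¹ * (ind i b * ind j a) * (ind r b * g r) := by
    intro r; simp only [al]; ring
  simp only [h, Finset.sum_add_distrib, ← Finset.mul_sum, sum_ind]
  ring

lemma sum_al_right (a b i j : Fin N) (x : Fin N → ℝ) (g : Fin N → ℝ) :
    ∑ r, al a b i r j x * g r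
      = -(x a + x b)⁻¹ * (ind i a * ind j a * g b + ind i b * ind j b * g a) := by
  have h : ∀ r, al a b i r j x * g r = -(x a + x b)⁻¹ * (ind i a * ind j a) * (ind r b * g r)
      + -(x a + x b)⁻¹ * (ind i b * ind j b) * (ind r a * g r) := by
    intro r; simp only [al]; ring
  simp only [h, Finset.sum_add_distrib, ← Finset.mul_sum, sum_ind]
  ring

lemma tri (c : ℝ) (j0 k0 m0 : Fin N) (f : Fin N → ℝ) :
    ∑ j, ∑ k, ∑ m, c * (ind j j0 * f j) * (ind k k0 * f k) * (ind m m0 * f m)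
      = c * f j0 * f k0 * f m0 := by
  simp only [← Finset.mul_sum, sum_ind]
  simp only [← Finset.sum_mul, ← Finset.mul_sum, sum_ind]

lemma rhs_formula (a b : Fin N) (hab : a ≠ b) (i : Fin N) (v : Jet N)
    (hv : v ∈ jetsOver (Om a b)) :
    (sys a b).rhs i v = v 3 i - 3 * (v 0 a + v 0 b)⁻¹ *
        (ind i a * v 1 b * v 2 a + ind i b * v 1 a * v 2 b)
      + 3 * ((v 0 a + v 0 b)⁻¹) ^ 2 *
        (ind i a * v 1 a * v 1 b ^ 2 + ind i b * v 1 a ^ 2 * v 1 b) := by
  have hx : v 0 ∈ Om a b := hv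
  have hba : b ≠ a := hab.symm
  have hb : (sys a b).β = fun _ _ _ _ _ => 0 := rfl
  have ha : (sys a b).α = al a b := rfl
  rw [GeomSystem.rhs, ha, hb]
  have h1 : ∑ j, ∑ k, al a b i j k (v 0) * v 1 j * v 2 k
      = -(v 0 a + v 0 b)⁻¹ * (ind i a * v 1 b * v 2 a + ind i b * v 1 a * v 2 b) := by
    have h : ∀ j, ∑ k, al a b i j k (v 0) * v 1 j * v 2 k
        = -(v 0 a + v 0 b)⁻¹ * ind i a * v 2 a * (ind j b * v 1 j)
          + -(v 0 a + v 0 b)⁻¹ * ind i b * v 2 b * (ind j a * v 1 j) := by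
      intro j
      have h' : ∀ k, al a b i j k (v 0) * v 1 j * v 2 k
          = v 1 j * (al a b i j k (v 0) * v 2 k) := by intro k; ring
      simp only [h', ← Finset.mul_sum, sum_al_left]
      ring
    simp only [h, Finset.sum_add_distrib, ← Finset.mul_sum, sum_ind]
    ring
  have h2 : ∀ j k m, (pd j (al a b i k m) (v 0)
        + 2 * ∑ r, al a b i j r (v 0) * al a b r k m (v 0)
        - ∑ r, al a b i r j (v 0) * al a b r k m (v 0) + 0) * v 1 j * v 1 k * v 1 m
      = (ind i a * ((v 0 a + v 0 b)⁻¹) ^ 2) * (ind j a * v 1 j) * (ind k b * v 1 k) * (ind m a * v 1 m)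
        + (3 * ind i a * ((v 0 a + v 0 b)⁻¹) ^ 2) * (ind j b * v 1 j) * (ind k b * v 1 k) * (ind m a * v 1 m)
        + (- ind i a * ((v 0 a + v 0 b)⁻¹) ^ 2) * (ind j a * v 1 j) * (ind k a * v 1 k) * (ind m b * v 1 m)
        + (ind i b * ((v 0 a + v 0 b)⁻¹) ^ 2) * (ind j b * v 1 j) * (ind k a * v 1 k) * (ind m b * v 1 m)
        + (3 * ind i b * ((v 0 a + v 0 b)⁻¹) ^ 2) * (ind j a * v 1 j) * (ind k a * v 1 k) * (ind m b * v 1 m)
        + (- ind i b * ((v 0 a + v 0 b)⁻¹) ^ 2) * (ind j b * v 1 j) * (ind k b * v 1 k) * (ind m a * v 1 m) := by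
    intro j k m
    rw [pd_al a b _ _ _ _ _ hx, sum_al_left, sum_al_right]
    simp only [al, ind_self, ind_ne hab, ind_ne hba]
    ring
  rw [h1]
  simp only [h2, Finset.sum_add_distrib, tri]
  ring

lemma K_three (a b : Fin N) :
    K a b 3 = u 3 a - 3 * u 2 a * u 1 b * w + 3 * u 1 a * (u 1 b) ^ 2 * w ^ 2 := by
  have e0 : E b a 0 = 1 := rfl
  have e1 : E b a 1 = u 1 b * w := by simp [E]
  have e2 : E b a 2 = u 2 b * w - u 1 a * u 1 b * w ^ 2 := by
    rw [E, e1, Derivation.leibniz, D_u, D_w]; simp only [smul_eq_mul]; ring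
  have t0 : T a b 0 = u 1 a := rfl
  have t1 : T a b 1 = u 2 a - u 1 a * u 1 b * w := by
    rw [T, t0, D_u]; ring
  have t2 : T a b 2 = u 3 a - 2 * u 2 a * u 1 b * w - u 1 a * u 2 b * w
      + u 1 a * u 1 b * (u 1 a + 2 * u 1 b) * w ^ 2 := by
    rw [T, t1, map_sub, Derivation.leibniz, Derivation.leibniz, D_u, D_u, D_u, D_w]
    simp only [smul_eq_mul]; ring
  simp only [K, Finset.sum_range_succ, Finset.sum_range_zero, Nat.reduceSub, e0, e1, e2, t0, t1, t2]
  ring

lemma rhs_eq (a b : Fin N) (hab : a ≠ b) (i : Fin N) (v : Jet N) (hv : v ∈ jetsOver (Om a b)) :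
    (sys a b).rhs i v = ev a b v (Ch a b 3 i) := by
  rw [rhs_formula a b hab i v hv]
  simp only [Ch]
  by_cases h1 : i = a
  · subst h1
    simp only [if_true, K_three, ind_self, ind_ne hab, map_add, map_sub, map_mul, map_pow, ev_u,
      ev_w, map_ofNat]
    ring
  · by_cases h2 : i = b
    · subst h2
      simp only [h1, if_false, if_true, K_three, ind_self, ind_ne hab.symm, map_add, map_sub,
        map_mul, map_pow, ev_u, ev_w, map_ofNat]
      ring
    · simp only [h1, h2, if_false, ind_ne h1, ind_ne h2, ev_u]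
      ring

/-- the flows of the hierarchy -/
noncomputable def flow (a b : Fin N) (n : ℕ) (i : Fin N) (v : Jet N) : ℝ := ev a b v (Ch a b n i)

lemma flow_order (a b : Fin N) (n : ℕ) : IsFlowOfOrder (Om a b) (n + 1) (flow a b (n + 1)) := by
  refine ⟨fun i v => ev a b v (Ch a b (n + 1) i - u (n + 1) i), ?_, ?_⟩
  · intro i
    exact ev_smooth a b (Nat.succ_pos n) (Ch_sub_mem_Low a b n i)
  · intro v _ i
    simp [flow]

lemma flow_comm (a b : Fin N) (hab : a ≠ b) {m n : ℕ} (hm : Odd m) (hn : Odd n) :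
    FlowsCommute (Om a b) (flow a b m) (flow a b n) := by
  intro v hv i
  rw [evolDeriv_eq a b (flow a b m) (Ch a b m) (fun _ _ _ => rfl) (flow a b n i) (Ch a b n i)
      (fun _ _ => rfl) v hv,
    evolDeriv_eq a b (flow a b n) (Ch a b n) (fun _ _ _ => rfl) (flow a b m i) (Ch a b m i)
      (fun _ _ => rfl) v hv]
  exact congrArg (ev a b v) (flows_symm a b hab hm hn i)

lemma rhs_comm (a b : Fin N) (hab : a ≠ b) {n : ℕ} (hn : Odd n) :
    FlowsCommute (Om a b) (sys a b).rhs (flow a b n) := by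
  intro v hv i
  have h3 : Odd 3 := by decide
  rw [evolDeriv_eq a b (sys a b).rhs (Ch a b 3) (rhs_eq a b hab) (flow a b n i) (Ch a b n i)
      (fun _ _ => rfl) v hv,
    evolDeriv_eq a b (flow a b n) (Ch a b n) (fun _ _ _ => rfl) ((sys a b).rhs i) (Ch a b 3 i)
      (rhs_eq a b hab i) v hv]
  exact congrArg (ev a b v) (flows_symm a b hab h3 hn i)

lemma sys_integrable (a b : Fin N) (hab : a ≠ b) : (sys a b).IsIntegrable := by
  refine ⟨fun s => 2 * s + 1, fun s => flow a b (2 * s + 1), ?_, ?_, ?_, ?_⟩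
  · intro s t hst
    simp only
    omega
  · intro s
    exact flow_order a b (2 * s)
  · intro s
    exact rhs_comm a b hab ⟨s, rfl⟩
  · intro s t
    exact flow_comm a b hab ⟨s, rfl⟩ ⟨t, rfl⟩


/-! ## No scalar reduction of the two-component system -/

lemma line_mem {U : Set (Fin N → ℝ)} (hU : IsOpen U) (v w : Jet N) (hv : v ∈ jetsOver U) :
    ∀ᶠ t in nhds (0 : ℝ), v + t • w ∈ jetsOver U := by
  have hcont : Continuous (fun t : ℝ => v 0 + t • w 0) := by fun_prop
  have h0 : (fun t : ℝ => v 0 + t • w 0) 0 ∈ U := by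
    have : v 0 ∈ U := hv
    simpa using this
  exact hcont.continuousAt.eventually_mem (hU.mem_nhds h0)

lemma lineDeriv_of_eqOn {U : Set (Fin N → ℝ)} (hU : IsOpen U) (F G : Jet N → ℝ)
    (h : ∀ v ∈ jetsOver U, F v = G v) (v w : Jet N) (hv : v ∈ jetsOver U) (c : ℝ)
    (hG : HasDerivAt (fun t : ℝ => G (v + t • w)) c 0) : lineDeriv ℝ F v w = c := by
  have hev : (fun t : ℝ => F (v + t • w)) =ᶠ[nhds 0] (fun t : ℝ => G (v + t • w)) := by
    filter_upwards [line_mem hU v w hv] with t ht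
    exact h _ ht
  exact (hG.congr_of_eventuallyEq hev).deriv

lemma hasDerivAt_line (v w : Jet N) (k : ℕ) :
    HasDerivAt (fun t : ℝ => (v + t • w) k) (w k) 0 := by
  have h := ((hasDerivAt_id (0 : ℝ)).smul_const (w k)).const_add (v k)
  simpa using h

lemma contDiffOn_fderiv {E : Type*} [NormedAddCommGroup E] [NormedSpace ℝ E]
    {U : Set (Fin N → ℝ)} (hU : IsOpen U) {g : (Fin N → ℝ) → E} (hg : ContDiffOn ℝ ∞ g U) :
    ContDiffOn ℝ ∞ (fderiv ℝ g) U :=
  hg.fderiv_of_isOpen hU (by simp)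

lemma hasFDerivAt_of {E : Type*} [NormedAddCommGroup E] [NormedSpace ℝ E]
    {U : Set (Fin N → ℝ)} (hU : IsOpen U) {g : (Fin N → ℝ) → E} (hg : ContDiffOn ℝ ∞ g U)
    {x : Fin N → ℝ} (hx : x ∈ U) : HasFDerivAt g (fderiv ℝ g x) x :=
  ((hg.differentiableOn (by simp)).differentiableAt (hU.mem_nhds hx)).hasFDerivAt

lemma hasDerivAt_comp_line {E : Type*} [NormedAddCommGroup E] [NormedSpace ℝ E]
    {U : Set (Fin N → ℝ)} (hU : IsOpen U) {g : (Fin N → ℝ) → E} (hg : ContDiffOn ℝ ∞ g U)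
    (v w : Jet N) (hv : v ∈ jetsOver U) :
    HasDerivAt (fun t : ℝ => g ((v + t • w) 0)) (fderiv ℝ g (v 0) (w 0)) 0 := by
  have h0 : (v + (0 : ℝ) • w) 0 = v 0 := by simp
  have h1 : HasFDerivAt g (fderiv ℝ g (v 0)) ((v + (0 : ℝ) • w) 0) := by
    rw [h0]; exact hasFDerivAt_of hU hg hv
  exact h1.comp_hasDerivAt (0 : ℝ) (hasDerivAt_line v w 0)

lemma lineDeriv_base {U : Set (Fin N → ℝ)} (hU : IsOpen U) {f : (Fin N → ℝ) → ℝ}
    (hf : ContDiffOn ℝ ∞ f U) (v w : Jet N) (hv : v ∈ jetsOver U) :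
    lineDeriv ℝ (fun v : Jet N => f (v 0)) v w = fderiv ℝ f (v 0) (w 0) :=
  (hasDerivAt_comp_line hU hf v w hv).deriv

lemma total_one {U : Set (Fin N → ℝ)} (hU : IsOpen U) {f : (Fin N → ℝ) → ℝ}
    (hf : ContDiffOn ℝ ∞ f U) (v : Jet N) (hv : v ∈ jetsOver U) :
    totalDeriv (fun v : Jet N => f (v 0)) v = fderiv ℝ f (v 0) (v 1) :=
  lineDeriv_base hU hf v _ hv

lemma total_two {U : Set (Fin N → ℝ)} (hU : IsOpen U) {f : (Fin N → ℝ) → ℝ}
    (hf : ContDiffOn ℝ ∞ f U) (v : Jet N) (hv : v ∈ jetsOver U) :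
    (totalDeriv^[2] (fun v : Jet N => f (v 0))) v
      = fderiv ℝ (fderiv ℝ f) (v 0) (v 1) (v 1) + fderiv ℝ f (v 0) (v 2) := by
  apply lineDeriv_of_eqOn hU _ _ (total_one hU hf) v (fun k => v (k + 1)) hv
  have h1 := hasDerivAt_comp_line hU (contDiffOn_fderiv hU hf) v (fun k => v (k + 1)) hv
  have h2 := hasDerivAt_line v (fun k => v (k + 1)) 1
  have h3 := h1.clm_apply h2
  simpa using h3

lemma total_three {U : Set (Fin N → ℝ)} (hU : IsOpen U) {f : (Fin N → ℝ) → ℝ}
    (hf : ContDiffOn ℝ ∞ f U) (v : Jet N) (hv : v ∈ jetsOver U) :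
    (totalDeriv^[3] (fun v : Jet N => f (v 0))) v
      = fderiv ℝ (fderiv ℝ (fderiv ℝ f)) (v 0) (v 1) (v 1) (v 1)
        + 3 * fderiv ℝ (fderiv ℝ f) (v 0) (v 1) (v 2) + fderiv ℝ f (v 0) (v 3) := by
  apply lineDeriv_of_eqOn hU _ _ (total_two hU hf) v (fun k => v (k + 1)) hv
  have hf1 := contDiffOn_fderiv hU hf
  have hf2 := contDiffOn_fderiv hU hf1
  have h1 := hasDerivAt_comp_line hU hf1 v (fun k => v (k + 1)) hv
  have h2 := hasDerivAt_line v (fun k => v (k + 1)) 2
  have h3 := h1.clm_apply h2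
  have h4 := hasDerivAt_comp_line hU hf2 v (fun k => v (k + 1)) hv
  have h5 := hasDerivAt_line v (fun k => v (k + 1)) 1
  have h6 := (h4.clm_apply h5).clm_apply h5
  have hsymm : ∀ x y, fderiv ℝ (fderiv ℝ f) (v 0) x y = fderiv ℝ (fderiv ℝ f) (v 0) y x := by
    have hc : ContDiffAt ℝ ∞ f (v 0) := hf.contDiffAt (hU.mem_nhds hv)
    exact hc.isSymmSndFDerivAt (by
        rw [minSmoothness_of_isRCLikeNormedField]; exact ENat.LEInfty.out)
  have h7 := h6.fun_add h3
  refine h7.congr_deriv ?_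
  have := hsymm (v 2) (v 1)
  simp
  rw [this]
  ring

lemma no_reduction (a b : Fin N) (hab : a ≠ b) (hN : ∀ i : Fin N, i = a ∨ i = b) :
    ¬ (sys a b).HasScalarReduction := by
  rintro ⟨U, f, Φ, hU, hUΩ, hf, ⟨x0, hx0, hfx0⟩, hΦ⟩
  have hba : b ≠ a := hab.symm
  -- expansion of a vector in the basis
  have hexp : ∀ ξ : Fin N → ℝ, ξ = ξ a • (Pi.single a 1) + ξ b • (Pi.single b 1) := by
    intro ξ
    funext i
    rcases hN i with h | h
    · subst h; simp [hab]
    · subst h; simp [hba]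
  -- key pointwise computation
  have key : ∀ x ∈ U, fderiv ℝ f x (Pi.single a 1) = fderiv ℝ f x (Pi.single b 1) ∧
      (fderiv ℝ f x ≠ 0 → ∀ ξ κ : Fin N → ℝ, fderiv ℝ f x κ = 0 →
        -3 * (x a + x b)⁻¹ * (fderiv ℝ f x (Pi.single a 1) * ξ b * κ a
          + fderiv ℝ f x (Pi.single b 1) * ξ a * κ b)
          - 3 * fderiv ℝ (fderiv ℝ f) x ξ κ = 0) := by
    intro x hx
    have hxΩ : 0 < x a + x b := hUΩ hx
    have hW : (x a + x b)⁻¹ ≠ 0 := inv_ne_zero hxΩ.ne'
    set W := (x a + x b)⁻¹ with hWdef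
    set A := fderiv ℝ f x with hA
    set B := fderiv ℝ (fderiv ℝ f) x with hB
    set p := A (Pi.single a 1) with hp
    set q := A (Pi.single b 1) with hq
    by_cases hA0 : A = 0
    · refine ⟨by simp [hp, hq, hA0], fun h => absurd hA0 h⟩
    have hAexp : ∀ ξ, A ξ = p * ξ a + q * ξ b := by
      intro ξ
      conv_lhs => rw [hexp ξ]
      rw [map_add, map_smul, map_smul, smul_eq_mul, smul_eq_mul]
      ring
    have hsymm : ∀ ξ η, B ξ η = B η ξ := by
      have hc : ContDiffAt ℝ ∞ f x := hf.contDiffAt (hU.mem_nhds hx)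
      exact hc.isSymmSndFDerivAt (by
        rw [minSmoothness_of_isRCLikeNormedField]; exact ENat.LEInfty.out)
    obtain ⟨η0, hη0⟩ : ∃ η0, A η0 = 1 := by
      have : ∃ y, A y ≠ 0 := by
        by_contra hcon
        push Not at hcon
        exact hA0 (ContinuousLinearMap.ext (by simpa using hcon))
      obtain ⟨y, hy⟩ := this
      exact ⟨(A y)⁻¹ • y, by rw [map_smul, smul_eq_mul, inv_mul_cancel₀ hy]⟩
    -- the bilinear form
    set bf : (Fin N → ℝ) → (Fin N → ℝ) → ℝ := fun ξ η =>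
      -3 * W * (p * ξ b * η a + q * ξ a * η b) - 3 * B ξ η with hbf
    have hbf_add_right : ∀ ξ η η', bf ξ (η + η') = bf ξ η + bf ξ η' := by
      intro ξ η η'; simp only [hbf, map_add, Pi.add_apply]; ring
    have hbf_add_left : ∀ ξ ξ' η, bf (ξ + ξ') η = bf ξ η + bf ξ' η := by
      intro ξ ξ' η; simp only [hbf, map_add, Pi.add_apply, _root_.add_apply]; ring
    have hbf_smul_right : ∀ (c : ℝ) ξ η, bf ξ (c • η) = c * bf ξ η := by
      intro c ξ η; simp only [hbf, map_smul, Pi.smul_apply, smul_eq_mul]; ring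
    -- evaluate the reduction identity
    have hred : ∃ (C : (Fin N → ℝ) → ℝ) (Ψ : ℝ → ℝ → ℝ), ∀ ξ η, bf ξ η + C ξ
        = Ψ (A ξ) (B ξ ξ + A η) := by
      refine ⟨fun ξ => 3 * W ^ 2 * (p * ξ a * ξ b ^ 2 + q * ξ a ^ 2 * ξ b)
        - fderiv ℝ (fderiv ℝ (fderiv ℝ f)) x ξ ξ ξ, fun r s => Φ (f x) r s 0, ?_⟩
      intro ξ η
      set ζ : Fin N → ℝ :=
        (- (fderiv ℝ (fderiv ℝ (fderiv ℝ f)) x ξ ξ ξ + 3 * B ξ η)) • η0 with hζ
      have hAζ : A ζ = - (fderiv ℝ (fderiv ℝ (fderiv ℝ f)) x ξ ξ ξ + 3 * B ξ η) := by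
        rw [hζ, map_smul, hη0, smul_eq_mul, mul_one]
      let v : Jet N := fun k => match k with
        | 0 => x
        | 1 => ξ
        | 2 => η
        | _ => ζ
      have hv : v ∈ jetsOver U := hx
      have h1 := hΦ v hv
      have h2 : evolDeriv (sys a b).rhs (fun v => f (v 0)) v
          = A (fun i => (sys a b).rhs i v) := lineDeriv_base hU hf v _ hv
      rw [h2, total_one hU hf v hv, total_two hU hf v hv, total_three hU hf v hv] at h1
      have hv0 : v 0 = x := rfl
      have hv1 : v 1 = ξ := rfl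
      have hv2 : v 2 = η := rfl
      have hv3 : v 3 = ζ := rfl
      rw [hv0, hv1, hv2, hv3, ← hA, ← hB, hAζ] at h1
      have h3 : fderiv ℝ (fderiv ℝ (fderiv ℝ f)) x ξ ξ ξ + 3 * B ξ η
          + -(fderiv ℝ (fderiv ℝ (fderiv ℝ f)) x ξ ξ ξ + 3 * B ξ η) = 0 := by ring
      rw [h3] at h1
      change bf ξ η + (3 * W ^ 2 * (p * ξ a * ξ b ^ 2 + q * ξ a ^ 2 * ξ b)
        - fderiv ℝ (fderiv ℝ (fderiv ℝ f)) x ξ ξ ξ) = Φ (f x) (A ξ) (B ξ ξ + A η) 0
      rw [← h1, hAexp]
      have hva : v ∈ jetsOver (Om a b) := hUΩ hx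
      have ra := rhs_formula a b hab a v hva
      have rb := rhs_formula a b hab b v hva
      rw [ind_self, ind_ne hab] at ra
      rw [ind_self, ind_ne hba] at rb
      rw [hv0, hv1, hv2, hv3] at ra rb
      rw [ra, rb]
      have hζ2 : p * ζ a + q * ζ b = - (fderiv ℝ (fderiv ℝ (fderiv ℝ f)) x ξ ξ ξ + 3 * B ξ η) := by
        rw [← hAexp, hAζ]
      simp only [hbf]
      linear_combination (-1 : ℝ) * hζ2
    obtain ⟨C, Ψ, hCΨ⟩ := hred
    have hker_right : ∀ ξ κ, A κ = 0 → bf ξ κ = 0 := by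
      intro ξ κ hκ
      have e1 := hCΨ ξ 0
      have e2 := hCΨ ξ κ
      rw [hκ] at e2
      rw [map_zero] at e1
      have e3 : bf ξ (0 + 0) = bf ξ 0 + bf ξ 0 := hbf_add_right ξ 0 0
      rw [add_zero] at e3
      linarith
    have hbf_eq : ∀ ξ η, bf ξ η = A η * bf ξ η0 := by
      intro ξ η
      have e1 : η = (η - A η • η0) + A η • η0 := by abel
      have e2 : A (η - A η • η0) = 0 := by
        rw [map_sub, map_smul, hη0, smul_eq_mul, mul_one, sub_self]
      conv_lhs => rw [e1]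
      rw [hbf_add_right, hker_right ξ _ e2, hbf_smul_right, zero_add]
    have hker_left : ∀ ξ κ, A κ = 0 → bf κ ξ = 0 := by
      intro ξ κ hκ
      have hstep : ∀ s : ℝ, s * bf 0 η0 + C 0
          = (s + B 0 0 - B κ κ) * bf κ η0 + C κ := by
        intro s
        have e1 := hCΨ 0 (s • η0)
        have e2 := hCΨ κ ((s + B 0 0 - B κ κ) • η0)
        rw [hbf_smul_right, map_smul, hη0, smul_eq_mul, mul_one] at e1 e2
        rw [hκ] at e2
        rw [map_zero] at e1
        have e3 : B κ κ + (s + B 0 0 - B κ κ) = B 0 0 + s := by ring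
        rw [e3] at e2
        simp only [map_zero] at e1 e2 ⊢
        rw [e1, e2]
      have s0 := hstep 0
      have s1 := hstep 1
      have e0 : bf (0 + 0) η0 = bf 0 η0 + bf 0 η0 := hbf_add_left 0 0 η0
      rw [add_zero] at e0
      have e4 : bf κ η0 = 0 := by linarith
      rw [hbf_eq, e4, mul_zero]
    have hpq : p = q := by
      set κ : Fin N → ℝ := (-q) • (Pi.single a 1) + p • (Pi.single b 1) with hκdef
      have hκa : κ a = -q := by simp [hκdef, hab]
      have hκb : κ b = p := by simp [hκdef, hba]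
      have hκ : A κ = 0 := by rw [hAexp, hκa, hκb]; ring
      have e1 := hker_right (Pi.single a 1) κ hκ
      have e2 := hker_left (Pi.single a 1) κ hκ
      have e3 := hker_right (Pi.single b 1) κ hκ
      have e4 := hker_left (Pi.single b 1) κ hκ
      simp only [hbf] at e1 e2 e3 e4
      rw [hsymm κ] at e2 e4
      rw [hκa, hκb] at e1 e2 e3 e4
      have sa : (Pi.single a 1 : Fin N → ℝ) a = 1 := by simp
      have sb : (Pi.single b 1 : Fin N → ℝ) b = 1 := by simp
      have sab : (Pi.single a 1 : Fin N → ℝ) b = 0 := by simp [hba]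
      have sba : (Pi.single b 1 : Fin N → ℝ) a = 0 := by simp [hab]
      rw [sa, sab] at e1 e2
      rw [sb, sba] at e3 e4
      have g1 : W * (p * (q - p)) = 0 := by linarith
      have g2 : W * (q * (q - p)) = 0 := by linarith
      have g3 : p * (q - p) = 0 := (mul_eq_zero.mp g1).resolve_left hW
      have g4 : q * (q - p) = 0 := (mul_eq_zero.mp g2).resolve_left hW
      have g5 : (q - p) ^ 2 = 0 := by linear_combination g4 - g3
      have g6 : q - p = 0 := by simpa using g5
      linarith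
    exact ⟨hpq, fun _ ξ κ hκ => by simpa only [hbf] using hker_right ξ κ hκ⟩
  -- differentiate `f_a = f_b`
  have hdiff : ∀ ξ : Fin N → ℝ, fderiv ℝ (fderiv ℝ f) x0 ξ
      ((Pi.single a 1 : Fin N → ℝ) - Pi.single b 1) = 0 := by
    intro ξ
    have hd := hasFDerivAt_of hU (contDiffOn_fderiv hU hf) hx0
    have h1 := hd.clm_apply (hasFDerivAt_const ((Pi.single a 1 : Fin N → ℝ) - Pi.single b 1) x0)
    have h2 : (fun x => fderiv ℝ f x ((Pi.single a 1 : Fin N → ℝ) - Pi.single b 1))
        =ᶠ[nhds x0] fun _ => (0 : ℝ) := by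
      filter_upwards [hU.mem_nhds hx0] with y hy
      rw [map_sub, (key y hy).1, sub_self]
    have h3 : HasFDerivAt (fun x => fderiv ℝ f x ((Pi.single a 1 : Fin N → ℝ) - Pi.single b 1))
        (0 : (Fin N → ℝ) →L[ℝ] ℝ) x0 := (hasFDerivAt_const (0 : ℝ) x0).congr_of_eventuallyEq h2
    have h4 := h1.unique h3
    have h5 := congrArg (fun L : (Fin N → ℝ) →L[ℝ] ℝ => L ξ) h4
    simpa using h5
  obtain ⟨k1, k2⟩ := key x0 hx0
  have hW : (x0 a + x0 b)⁻¹ ≠ 0 := inv_ne_zero (show (0 : ℝ) < _ from hUΩ hx0).ne'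
  have hκ : fderiv ℝ f x0 ((Pi.single a 1 : Fin N → ℝ) - Pi.single b 1) = 0 := by
    rw [map_sub, k1, sub_self]
  have h1 := k2 hfx0 (Pi.single a 1) _ hκ
  rw [hdiff, k1] at h1
  have sa : (Pi.single a 1 : Fin N → ℝ) a = 1 := by simp
  have sab : (Pi.single a 1 : Fin N → ℝ) b = 0 := by simp [hba]
  have sb : (Pi.single b 1 : Fin N → ℝ) b = 1 := by simp
  have sba : (Pi.single b 1 : Fin N → ℝ) a = 0 := by simp [hab]
  simp only [Pi.sub_apply, sa, sab, sb, sba] at h1
  have h2 : (x0 a + x0 b)⁻¹ * fderiv ℝ f x0 (Pi.single b 1) = 0 := by linarith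
  have h3 : fderiv ℝ f x0 (Pi.single b 1) = 0 := (mul_eq_zero.mp h2).resolve_left hW
  apply hfx0
  ext ξ
  rw [hexp ξ, map_add, map_smul, map_smul, k1, h3]
  simp

end Alg

open Alg in
/-- For every `N ≥ 2` (for any two distinct indices `a`, `b` of `Fin N`) the system
`u^a_t = u^a_xxx - 3 u^a_xx u^b_x / m + 3 u^a_x (u^b_x)^2 / m^2`,
`u^b_t = u^b_xxx - 3 u^b_xx u^a_x / m + 3 u^b_x (u^a_x)^2 / m^2`, `m = u^a + u^b > 0`,
`u^i_t = u^i_xxx` for the other `i`, is a system of geometric type, it has an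
infinite hierarchy of (pairwise commuting) higher symmetries, and its connection has nonzero torsion
and nonzero curvature at every point of the domain. The curvature is nonzero for both readings of
the order of the lower indices of `Γ`. For `N = 2` the system has moreover no scalar reduction, so
it is not obtained by combining one-component equations. -/
theorem result (N : ℕ) (a b : Fin N) (hab : a ≠ b) : ∃ S : GeomSystem N,
    S.Ω = {u | 0 < u a + u b} ∧
    (∀ v ∈ jetsOver S.Ω,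
      S.rhs a v = v 3 a - 3 * v 2 a * v 1 b / (v 0 a + v 0 b)
        + 3 * v 1 a * v 1 b ^ 2 / (v 0 a + v 0 b) ^ 2 ∧
      S.rhs b v = v 3 b - 3 * v 2 b * v 1 a / (v 0 a + v 0 b)
        + 3 * v 1 b * v 1 a ^ 2 / (v 0 a + v 0 b) ^ 2 ∧
      ∀ i, i ≠ a → i ≠ b → S.rhs i v = v 3 i) ∧
    S.IsIntegrable ∧
    (∀ u ∈ S.Ω, (∃ i j k, torsion S.α i j k u ≠ 0) ∧ (∃ i l j k, curvature S.α i l j k u ≠ 0) ∧
      (∃ i l j k, curvature (fun i j k => S.α i k j) i l j k u ≠ 0)) ∧
    (N = 2 → ¬ S.HasScalarReduction) := by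
  have hba : b ≠ a := hab.symm
  refine ⟨sys a b, rfl, ?_, sys_integrable a b hab, ?_, ?_⟩
  · intro v hv
    refine ⟨?_, ?_, ?_⟩
    · rw [rhs_formula a b hab a v hv, ind_self, ind_ne hab]
      simp only [div_eq_mul_inv, inv_pow]
      ring
    · rw [rhs_formula a b hab b v hv, ind_self, ind_ne hba]
      simp only [div_eq_mul_inv, inv_pow]
      ring
    · intro i hia hib
      rw [rhs_formula a b hab i v hv, ind_ne hia, ind_ne hib]
      ring
  · intro x hx
    have hx' : 0 < x a + x b := hx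
    have hα : (sys a b).α = al a b := rfl
    have hW : (x a + x b)⁻¹ ≠ 0 := inv_ne_zero hx'.ne'
    rw [hα]
    refine ⟨⟨a, b, a, ?_⟩, ⟨b, b, a, b, ?_⟩, ⟨b, b, a, b, ?_⟩⟩
    · simp [torsion, al, ind_self, ind_ne hab, ind_ne hba, hx'.ne']
    · have h : curvature (al a b) b b a b x = -((x a + x b)⁻¹) ^ 2 := by
        rw [curvature, pd_al a b _ _ _ _ _ hx, pd_al a b _ _ _ _ _ hx, Finset.sum_sub_distrib,
          sum_al_left, sum_al_left]
        simp only [al, ind_self, ind_ne hab, ind_ne hba]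
        ring
      rw [h]
      exact neg_ne_zero.mpr (pow_ne_zero 2 hW)
    · have h : curvature (fun i j k => al a b i k j) b b a b x = -((x a + x b)⁻¹) ^ 2 := by
        rw [curvature, pd_al a b _ _ _ _ _ hx, pd_al a b _ _ _ _ _ hx, Finset.sum_sub_distrib,
          sum_al_right, sum_al_right]
        simp only [al, ind_self, ind_ne hab, ind_ne hba]
        ring
      rw [h]
      exact neg_ne_zero.mpr (pow_ne_zero 2 hW)
  · intro h2
    apply no_reduction a b hab
    intro i
    have hi : i.val < 2 := h2 ▸ i.isLt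
    have ha : a.val < 2 := h2 ▸ a.isLt
    have hb : b.val < 2 := h2 ▸ b.isLt
    have hab' : a.val ≠ b.val := fun h => hab (Fin.ext h)
    by_cases h : i.val = a.val
    · left; exact Fin.ext h
    · right; apply Fin.ext; omega

end Pool.Agent.Results.MP_3301e6_mp.TorsionCurvature
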